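import Mathlib
import Pool.Agent.X202.Schl

set_option autoImplicit false

/-!
# The dual of Schlumprecht space has an isometrically greedy renorming

Let `S` be Schlumprecht space with unit vector basis `(e_n)` (a Banach space with a sequence `e` of
dense span whose norm on the span satisfies Schlumprecht's implicit equation), and `e'` the
coordinate functionals. Write `φ(m) = log_2 (m + 1)`. For `x` in the dual put

`N(x) = sup c_m ∑_{i ∈ A} |x_i| + |∑_{i ∉ A} (T_l g)_i x_i|`,  `x_i = x(e_i)`, `m = |A|`, `c_m = 2 φ(m)/m`,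

the supremum over all finite sets `A`, all finitely supported `g` in the unit ball of `S`, and the
levels `l` for which the mass of `g` above `l` equals `min (‖g‖_1, φ(m))`, where `T_l` truncates the
coordinates at `l`. If `j ∉ A` is a coordinate of maximal modulus of `x`, then passing from `A` to
`A ∪ {j}` does not decrease the value: the `ℓ_1`-part gains at least `2 (φ(m+1) - φ(m)) |x_j|` by
concavity of `φ`, while the mass removed from `g` and the truncated coordinate `j` each cost at most
`(φ(m+1) - φ(m)) |x_j|`. Hence only sets `A` containing a prescribed set of top coordinates matter,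
which gives the invariance of `N` under moving top coordinates, and with unconditionality the
`1`-greedy property. That `N` is equivalent to the dual norm follows from `∑_A |g_i| ≤ φ(|A|) ‖g‖`
and `‖∑_{i ∈ A} ± e_i‖ ≤ |A| / φ(|A|)` in `S`.
-/

namespace Pool.Agent.Results.MP_439cf8_an.DualSchlumprecht

/-- **Main result.** The dual of Schlumprecht space `S` has an equivalent norm for which its
canonical basis (the coordinate functionals `e'` of the unit vector basis `e` of `S`) is
isometrically greedy. -/
theorem result (S : Type) [NormedAddCommGroup S] [NormedSpace ℝ S] [CompleteSpace S]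
    (e : ℕ → S) (e' : ℕ → (S →L[ℝ] ℝ))
    (hdense : Dense (Submodule.span ℝ (Set.range e) : Set S))
    (hbi : ∀ i j : ℕ, e' i (e j) = if i = j then 1 else 0)
    -- the implicit equation of the norm of Schlumprecht space
    (hnorm : ∀ a : ℕ →₀ ℝ, IsLUB
      {r : ℝ | (∃ i, r = |a i|) ∨
        ∃ (n : ℕ) (p q : ℕ → ℕ), 2 ≤ n ∧ (∀ i < n, p i ≤ q i) ∧
          (∀ i, i + 1 < n → q i < p (i + 1)) ∧
          r = 1 / Real.logb 2 (n + 1) *
            ∑ i ∈ Finset.range n, ‖∑ k ∈ Finset.Icc (p i) (q i), a k • e k‖}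
      ‖∑ i ∈ a.support, a i • e i‖) :
    ∃ N : Seminorm ℝ (S →L[ℝ] ℝ),
      (∃ c C : ℝ, 0 < c ∧ ∀ x, c * ‖x‖ ≤ N x ∧ N x ≤ C * ‖x‖) ∧
      ∀ (x : S →L[ℝ] ℝ) (A B : Finset ℕ) (b : ℕ → ℝ),
        (∀ i ∈ A, ∀ j ∉ A, |x (e j)| ≤ |x (e i)|) → B.card ≤ A.card →
        N (x - ∑ i ∈ A, x (e i) • e' i) ≤ N (x - ∑ i ∈ B, b i • e' i) :=
  ⟨X202.Schl.newnorm e hnorm, ⟨1, 4, one_pos, fun x => ⟨by
    rw [one_mul]
    exact X202.Schl.le_newnorm e hnorm x hdense, X202.Schl.newnorm_le e hnorm x⟩⟩,
    fun x A B b hA hAB => X202.Schl.isGreedy e hnorm x e' hbi A B b hA hAB⟩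

end Pool.Agent.Results.MP_439cf8_an.DualSchlumprecht
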